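import Pool.Agent.Helper34.CM.Stm
import Pool.Agent.W76.MO.Asm1

/-!
# The key inequality for the cells, with multiplicities
-/

set_option autoImplicit false

namespace Pool.Agent.Helper97.CM

open Finset
open scoped Classical
open Pool.Agent.W76.MO Pool.Agent.Helper34.CM

lemma one_le_cmp (v : ℕ → ℝ) (hv : ∀ p, 0 ≤ v p) (n : ℕ) (hn : n ≠ 0) :
    1 ≤ Helper34.CM.cmp (fun p => 1 + v p) n := by
  refine ind_primes (P := fun n => 1 ≤ Helper34.CM.cmp (fun p => 1 + v p) n) ?_ ?_ n hn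
  · rw [cmp_one]
  · intro p m hp hm ih
    rw [cmp_mul _ hp.ne_zero hm, cmp_prime _ hp]
    nlinarith [hv p]

lemma der_nonneg (u v : ℕ → ℝ) (hu : ∀ p, 0 ≤ u p) (hv : ∀ p, 0 ≤ v p) (n : ℕ) : 0 ≤ der u v n := by
  unfold der
  apply List.sum_nonneg
  intro a ha
  obtain ⟨p, _, rfl⟩ := List.mem_map.1 ha
  exact mul_nonneg (hu p) (cmp_nonneg _ fun q _ _ => hv q)

lemma split_all (u s : ℕ → ℝ) (hu : ∀ p, 0 ≤ u p) (hs : ∀ p, 0 ≤ s p) (n : ℕ) (hn : n ≠ 0) :
    (Helper34.CM.cmp (fun p => 1 + (u p + s p)) n + der (fun p => u p + s p) (fun p => 1 + (u p + s p)) n ≤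
      Helper34.CM.cmp (fun p => 1 + 2 * (u p + s p)) n) ∧
    (der (fun p => u p + s p) (fun p => 1 + (u p + s p)) n ≤
      der u (fun p => 1 + 2 * (u p + s p)) n + Helper34.CM.cmp (fun p => 1 + 2 * s p) n) ∧
    (Helper34.CM.cmp (fun p => 1 + (u p + s p)) n + der (fun p => u p + s p) (fun p => 1 + (u p + s p)) n ≤
      2 * der u (fun p => 1 + 2 * (u p + s p)) n + Helper34.CM.cmp (fun p => 1 + 2 * s p) n) := by
  refine ind_primes (P := fun n =>
    (Helper34.CM.cmp (fun p => 1 + (u p + s p)) n + der (fun p => u p + s p) (fun p => 1 + (u p + s p)) n ≤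
      Helper34.CM.cmp (fun p => 1 + 2 * (u p + s p)) n) ∧
    (der (fun p => u p + s p) (fun p => 1 + (u p + s p)) n ≤
      der u (fun p => 1 + 2 * (u p + s p)) n + Helper34.CM.cmp (fun p => 1 + 2 * s p) n) ∧
    (Helper34.CM.cmp (fun p => 1 + (u p + s p)) n + der (fun p => u p + s p) (fun p => 1 + (u p + s p)) n ≤
      2 * der u (fun p => 1 + 2 * (u p + s p)) n + Helper34.CM.cmp (fun p => 1 + 2 * s p) n)) ?_ ?_ n hn
  · simp [cmp_one, der_one]
  · intro a m ha hm ih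
    rw [der_mul _ _ ha hm, der_mul _ _ ha hm, cmp_mul _ ha.ne_zero hm, cmp_mul _ ha.ne_zero hm,
      cmp_mul _ ha.ne_zero hm, cmp_prime _ ha, cmp_prime _ ha, cmp_prime _ ha]
    obtain ⟨h0, h1, h2⟩ := ih
    have hua := hu a
    have hsa := hs a
    have hE1 : 1 ≤ Helper34.CM.cmp (fun p => 1 + (u p + s p)) m :=
      one_le_cmp _ (fun p => add_nonneg (hu p) (hs p)) m hm
    have hT : 0 ≤ der (fun p => u p + s p) (fun p => 1 + (u p + s p)) m :=
      der_nonneg _ _ (fun p => add_nonneg (hu p) (hs p)) (fun p => by linarith [hu p, hs p]) m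
    have hA : 0 ≤ der u (fun p => 1 + 2 * (u p + s p)) m :=
      der_nonneg _ _ hu (fun p => by linarith [hu p, hs p]) m
    have hB : 1 ≤ Helper34.CM.cmp (fun p => 1 + 2 * s p) m :=
      one_le_cmp (fun p => 2 * s p) (fun p => by linarith [hs p]) m hm
    set E1 := Helper34.CM.cmp (fun p => 1 + (u p + s p)) m with hE1d
    set T := der (fun p => u p + s p) (fun p => 1 + (u p + s p)) m with hTd
    set E2 := Helper34.CM.cmp (fun p => 1 + 2 * (u p + s p)) m with hE2d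
    set A := der u (fun p => 1 + 2 * (u p + s p)) m with hAd
    set B := Helper34.CM.cmp (fun p => 1 + 2 * s p) m with hBd
    have k1 : 0 ≤ u a * (E2 - (E1 + T)) := mul_nonneg hua (by linarith)
    have k2 : 0 ≤ s a * (E2 - (E1 + T)) := mul_nonneg hsa (by linarith)
    have k3 : 0 ≤ s a * (2 * A + B - (E1 + T)) := mul_nonneg hsa (by linarith)
    have k4 : 0 ≤ u a * A := mul_nonneg hua hA
    have k5 : 0 ≤ s a * B := mul_nonneg hsa (by linarith)
    have k6 : 0 ≤ u a * T := mul_nonneg hua hT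
    have k7 : 0 ≤ s a * T := mul_nonneg hsa hT
    have k8 : 0 ≤ s a * A := mul_nonneg hsa hA
    have k9 : 0 ≤ u a * E1 := mul_nonneg hua (by linarith)
    have k10 : 0 ≤ u a * B := mul_nonneg hua (by linarith)
    refine ⟨?_, ?_, ?_⟩
    · nlinarith
    · nlinarith
    · nlinarith

/-- the large part of the mass at `n` -/
noncomputable def bigm (E : Env) (j i n : ℕ) : ℝ :=
  ∑ p ∈ n.primeFactors.filter (fun p : ℕ => (2 : ℝ) ^ (3 / 5 * (i : ℝ)) < p),
      E.gu j p * (E2m E j (n / p) / ((n / p : ℕ) : ℝ)) +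
  ∑ q ∈ n.primeFactors.filter (fun q : ℕ => (2 : ℝ) ^ (1 / 20 * (i : ℝ)) < q),
      (n.factorization q : ℝ) * (E.gh j q * (E2m E j (n / q) / ((n / q : ℕ) : ℝ)))

/-- a prime factor `> 2^(3i/5)` of `n ≤ 2^(i+1)` is simple -/
lemma fact_one {i n p : ℕ} (hi : 5 ≤ i) (hn0 : n ≠ 0) (hn : n ≤ 2 ^ (i + 1))
    (hp : p ∈ n.primeFactors) (h : (2 : ℝ) ^ (3 / 5 * (i : ℝ)) < p) : n.factorization p = 1 := by
  have hpp := Nat.prime_of_mem_primeFactors hp
  have hpn := Nat.dvd_of_mem_primeFactors hp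
  have h1 : 1 ≤ n.factorization p := by
    exact (hpp.dvd_iff_one_le_factorization hn0).1 hpn
  by_contra hne
  have h2 : 2 ≤ n.factorization p := by omega
  have h3 : p ^ 2 ∣ n := (hpp.pow_dvd_iff_le_factorization hn0).2 h2
  have h4 : p ^ 2 ≤ 2 ^ (i + 1) := (Nat.le_of_dvd (Nat.pos_of_ne_zero hn0) h3).trans hn
  have h5 : ((p : ℝ)) ^ 2 ≤ (2 : ℝ) ^ ((i : ℝ) + 1) := by
    have : ((p ^ 2 : ℕ) : ℝ) ≤ ((2 ^ (i + 1) : ℕ) : ℝ) := by exact_mod_cast h4
    push_cast at this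
    refine this.trans (le_of_eq ?_)
    rw [show ((i : ℝ) + 1) = ((i + 1 : ℕ) : ℝ) by push_cast; ring, Real.rpow_natCast]
  have h6 : (2 : ℝ) ^ ((i : ℝ) + 1) ≤ (2 : ℝ) ^ (3 / 5 * (i : ℝ) + 3 / 5 * (i : ℝ)) := by
    apply Real.rpow_le_rpow_of_exponent_le (by norm_num)
    have : (5 : ℝ) ≤ i := by exact_mod_cast hi
    linarith
  have h7 : (0 : ℝ) < (2 : ℝ) ^ (3 / 5 * (i : ℝ)) := Real.rpow_pos_of_pos (by norm_num) _
  have h8 : (2 : ℝ) ^ (3 / 5 * (i : ℝ) + 3 / 5 * (i : ℝ)) =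
      (2 : ℝ) ^ (3 / 5 * (i : ℝ)) * (2 : ℝ) ^ (3 / 5 * (i : ℝ)) := Real.rpow_add (by norm_num) _ _
  rw [h8] at h6
  nlinarith

lemma bigm_eq (E : Env) (j : ℕ) {i n : ℕ} (hi : 5 ≤ i) (hn0 : n ≠ 0) (hn : n ≤ 2 ^ (i + 1)) :
    (1 / (n : ℝ)) * der (fun p => p * E.gl j i p)
      (fun q => 1 + 2 * (q * E.gl j i q + q * E.gs j i q)) n = bigm E j i n := by
  unfold bigm
  rw [sum_filter, sum_filter, ← sum_add_distrib, der_eq, mul_sum]
  refine sum_congr rfl fun p hp => ?_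
  have hpp := Nat.prime_of_mem_primeFactors hp
  have hp0 : (p : ℝ) ≠ 0 := by exact_mod_cast hpp.ne_zero
  have hn0' : (n : ℝ) ≠ 0 := by exact_mod_cast hn0
  have h1 : Helper34.CM.cmp (fun q => 1 + 2 * (q * E.gl j i q + q * E.gs j i q)) (n / p) = E2m E j (n / p) := by
    unfold E2m
    refine cmp_congr _ fun q _ _ => ?_
    rw [← E.gl_add_gs j i q]
    ring
  rw [h1, cast_div_prime n p hp]
  unfold Env.gl
  have h2 : ∀ c d : ℝ, (1 / (n : ℝ)) * (d * (p * c * E2m E j (n / p))) =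
      d * (c * (E2m E j (n / p) / ((n : ℝ) / p))) := by
    intro c d
    field_simp
  rw [h2]
  by_cases k1 : (2 : ℝ) ^ (3 / 5 * (i : ℝ)) < p
  · have hf := fact_one hi hn0 hn hp k1
    by_cases k2 : (2 : ℝ) ^ (1 / 20 * (i : ℝ)) < p
    · simp only [if_pos k1, if_pos k2, hf]
      push_cast
      ring
    · simp only [if_pos k1, if_neg k2, hf]
      push_cast
      ring
  · by_cases k2 : (2 : ℝ) ^ (1 / 20 * (i : ℝ)) < p
    · simp only [if_neg k1, if_pos k2]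
      ring
    · simp only [if_neg k1, if_neg k2]
      ring

/-- pointwise bounds -/
lemma point (E : Env) (j : ℕ) {i n : ℕ} (hu : ∀ p, 0 ≤ E.gu j p) (hh : ∀ p, 0 ≤ E.gh j p)
    (hi : 5 ≤ i) (hn0 : n ≠ 0) (hn : n ≤ 2 ^ (i + 1)) :
    taum E j n ≤ bigm E j i n + (1 / (n : ℝ)) * Helper34.CM.cmp (fun p => 1 + 2 * (p * E.gs j i p)) n ∧
    massm E j n ≤ 2 * bigm E j i n + (1 / (n : ℝ)) * Helper34.CM.cmp (fun p => 1 + 2 * (p * E.gs j i p)) n := by
  have hs := split_all (fun p => p * E.gl j i p) (fun p => p * E.gs j i p)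
    (fun p => mul_nonneg (Nat.cast_nonneg p) (E.gl_nonneg j i p (hu p) (hh p)))
    (fun p => mul_nonneg (Nat.cast_nonneg p) (E.gs_nonneg j i p (hu p) (hh p))) n hn0
  have e1 : (fun p : ℕ => (p : ℝ) * E.gl j i p + (p : ℝ) * E.gs j i p) = fun p : ℕ => (p : ℝ) * E.g j p := by
    funext p
    rw [← E.gl_add_gs j i p]; ring
  have e2 : (fun p : ℕ => 1 + ((p : ℝ) * E.gl j i p + (p : ℝ) * E.gs j i p)) =
      fun p : ℕ => 1 + (p : ℝ) * E.g j p := by
    funext p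
    rw [← E.gl_add_gs j i p]; ring
  have hbig := bigm_eq E j hi hn0 hn
  have hn1 : (0 : ℝ) ≤ 1 / (n : ℝ) := by positivity
  obtain ⟨_, h1, h2⟩ := hs
  rw [e1, e2] at h1 h2
  have hg : ∀ p, 0 ≤ E.g j p := fun p => by
    rw [← E.gl_add_gs j i p]
    exact add_nonneg (E.gl_nonneg j i p (hu p) (hh p)) (E.gs_nonneg j i p (hu p) (hh p))
  have hT : 0 ≤ der (fun p : ℕ => (p : ℝ) * E.g j p) (fun p : ℕ => 1 + (p : ℝ) * E.g j p) n := by
    refine der_nonneg _ _ (fun p => mul_nonneg (Nat.cast_nonneg p) (hg p)) (fun p => ?_) n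
    have := mul_nonneg (Nat.cast_nonneg (α := ℝ) p) (hg p)
    linarith
  refine ⟨?_, ?_⟩
  · unfold taum
    refine (mul_le_mul_of_nonneg_left h1 hn1).trans (le_of_eq ?_)
    rw [mul_add, ← hbig]
  · unfold massm
    have h3 : Helper34.CM.cmp (fun p : ℕ => 1 + (p : ℝ) * E.g j p) n ≤
        2 * der (fun p => p * E.gl j i p)
          (fun q => 1 + 2 * (q * E.gl j i q + q * E.gs j i q)) n +
        Helper34.CM.cmp (fun p => 1 + 2 * (p * E.gs j i p)) n := by linarith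
    refine (mul_le_mul_of_nonneg_left h3 hn1).trans (le_of_eq ?_)
    rw [mul_add, ← hbig]
    ring

lemma mem_csm {E : Env} {R i k n : ℕ} (hk : k < nc E.δ i) (hn : n ∈ csm E R i k) :
    n ≠ 0 ∧ n ≤ 2 ^ (i + 1) := by
  unfold csm cell at hn
  rw [mem_filter, mem_Ioc] at hn
  obtain ⟨⟨h1, h2⟩, _⟩ := hn
  refine ⟨by rintro rfl; exact absurd h1 (Nat.not_lt_zero _), h2.trans ?_⟩
  have h3 : (k + 1) * hh E.δ i ≤ 2 ^ i := by
    calc (k + 1) * hh E.δ i ≤ nc E.δ i * hh E.δ i := Nat.mul_le_mul_right _ hk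
      _ ≤ 2 ^ i := Nat.div_mul_le_self _ _
  rw [pow_succ]
  linarith

theorem t_KEY : T_KEYM := by
  intro E hGB hU hH hS
  obtain ⟨J0, hJ0, hGB⟩ := hGB
  obtain ⟨R1, hU⟩ := hU
  obtain ⟨R2, hH⟩ := hH
  obtain ⟨J3, hS⟩ := hS
  refine ⟨max R1 R2, fun R hR => ?_⟩
  obtain ⟨J1, hU⟩ := hU R ((le_max_left _ _).trans hR)
  obtain ⟨J2, hH⟩ := hH R ((le_max_right _ _).trans hR)
  refine ⟨max 5 (max (max J0 J1) (max J2 J3)), fun j hj' => ?_⟩
  have hj5 : 5 ≤ j := (le_max_left _ _).trans hj'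
  have hj : max (max J0 J1) (max J2 J3) ≤ j := (le_max_right _ _).trans hj'
  have hj0 : J0 ≤ j := ((le_max_left _ _).trans (le_max_left _ _)).trans hj
  have hj1 : J1 ≤ j := ((le_max_right _ _).trans (le_max_left _ _)).trans hj
  have hj2 : J2 ≤ j := ((le_max_left _ _).trans (le_max_right _ _)).trans hj
  have hj3 : J3 ≤ j := ((le_max_right _ _).trans (le_max_right _ _)).trans hj
  obtain ⟨_, hu0, hh0, _⟩ := hGB j hj0
  have hbig : ∀ i k : ℕ, j ≤ i → k < nc E.δ i →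
      ∑ n ∈ csm E R i k, bigm E j i n ≤ E.w i + E.w i / 8 := by
    intro i k hi hk
    have a1 := hU j hj1 i hi k hk
    have a2 := hH j hj2 i hi k hk
    unfold bigm
    rw [sum_add_distrib]
    refine (add_le_add a1 a2).trans (le_of_eq ?_)
    split_ifs <;> ring
  have hgs : ∀ i p : ℕ, (0 : ℝ) ≤ 2 * (p * E.gs j i p) := fun i p => by
    have := mul_nonneg (Nat.cast_nonneg (α := ℝ) p) (E.gs_nonneg j i p (hu0 p) (hh0 p))
    linarith
  have hsm : ∀ i k : ℕ, j ≤ i → k < nc E.δ i →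
      ∑ n ∈ csm E R i k, (1 / (n : ℝ)) * Helper34.CM.cmp (fun p => 1 + 2 * (p * E.gs j i p)) n ≤
        E.w i / 16 := by
    intro i k hi hk
    refine le_trans (sum_le_sum_of_subset_of_nonneg ?_ ?_) (hS j hj3 i hi k hk)
    · intro n hn
      unfold csm at hn
      exact (mem_filter.1 hn).1
    · intro n _ _
      refine mul_nonneg (by positivity) (cmp_nonneg _ fun p _ _ => ?_)
      linarith [hgs i p]
  refine ⟨hu0, hh0, ?_, ?_, ?_⟩
  · intro i k hi hk
    have hw := E.w_pos i (hJ0.trans (hj0.trans hi))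
    calc ∑ n ∈ csm E R i k, taum E j n
        ≤ ∑ n ∈ csm E R i k, (bigm E j i n +
            (1 / (n : ℝ)) * Helper34.CM.cmp (fun p => 1 + 2 * (p * E.gs j i p)) n) :=
          sum_le_sum fun n hn =>
            (point E j hu0 hh0 (hj5.trans hi) (mem_csm hk hn).1 (mem_csm hk hn).2).1
      _ ≤ (E.w i + E.w i / 8) + E.w i / 16 := by
          rw [sum_add_distrib]
          exact add_le_add (hbig i k hi hk) (hsm i k hi hk)
      _ ≤ _ := by linarith
  · intro i k hi hk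
    have hw := E.w_pos i (hJ0.trans (hj0.trans hi))
    calc ∑ n ∈ csm E R i k, massm E j n
        ≤ ∑ n ∈ csm E R i k, (2 * bigm E j i n +
            (1 / (n : ℝ)) * Helper34.CM.cmp (fun p => 1 + 2 * (p * E.gs j i p)) n) :=
          sum_le_sum fun n hn =>
            (point E j hu0 hh0 (hj5.trans hi) (mem_csm hk hn).1 (mem_csm hk hn).2).2
      _ ≤ 2 * (E.w i + E.w i / 8) + E.w i / 16 := by
          rw [sum_add_distrib, ← mul_sum]
          exact add_le_add (mul_le_mul_of_nonneg_left (hbig i k hi hk) (by norm_num))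
            (hsm i k hi hk)
      _ ≤ _ := by linarith
  · intro i k hi hk
    have hw := E.w_pos i (hJ0.trans (hj0.trans hi))
    calc ∑ n ∈ csm E R i k, 1 / (n : ℝ)
        ≤ ∑ n ∈ csm E R i k, (1 / (n : ℝ)) * Helper34.CM.cmp (fun p => 1 + 2 * (p * E.gs j i p)) n := by
          refine sum_le_sum fun n hn => ?_
          have h1 := one_le_cmp (fun p => 2 * (p * E.gs j i p)) (hgs i) n (mem_csm hk hn).1
          have h2 : (0 : ℝ) ≤ 1 / (n : ℝ) := by positivity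
          nlinarith
      _ ≤ E.w i / 16 := hsm i k hi hk
      _ ≤ _ := by linarith

end Pool.Agent.Helper97.CM
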